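import Pool.Agent.Helper12.NK.St
import Pool.Agent.Helper41.AJ.M_CON

/-!
# Module PER of project NK (faces of a 3-connected plane graph are peripheral cycles)
-/

set_option autoImplicit false

namespace Pool.Agent.Helper10.NK

open Pool.Agent.Helper12.NK
open Pool.Agent.Helper51.AJ (IsMinor Planar Apex ExMinor Con Tch con_union con_singleton tch_symm tch_mono con_nonempty)
open Pool.Agent.Helper35.PM (Rot)

/-! ### connected sets and components -/

private lemma con_image {α β : Type} {G : SimpleGraph α} {H : SimpleGraph β} {S : Set α} (f : α → β)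
    (hf : ∀ a ∈ S, ∀ b ∈ S, G.Adj a b → H.Adj (f a) (f b)) (h : Con G S) : Con H (f '' S) := by
  let φ : G.induce S →g H.induce (f '' S) :=
    ⟨fun x => ⟨f x.1, x.1, x.2, rfl⟩, fun {a b} hab => hf _ a.2 _ b.2 hab⟩
  refine SimpleGraph.Connected.map φ ?_ h
  rintro ⟨_, x, hx, rfl⟩
  exact ⟨⟨x, hx⟩, rfl⟩

variable {V : Type} {G : SimpleGraph V}

/-- the component of `x` in `W` -/
private def cmp (G : SimpleGraph V) (W : Set V) (x : V) : Set V :=
  {y | ∃ (hx : x ∈ W) (hy : y ∈ W), (G.induce W).Reachable ⟨x, hx⟩ ⟨y, hy⟩}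

private lemma cmp_sub {W : Set V} {x : V} : cmp G W x ⊆ W := fun _ ⟨_, hy, _⟩ => hy

private lemma cmp_self {W : Set V} {x : V} (hx : x ∈ W) : x ∈ cmp G W x :=
  ⟨hx, hx, SimpleGraph.Reachable.refl _⟩

private lemma cmp_step {W : Set V} {x a b : V} (ha : a ∈ cmp G W x) (hb : b ∈ W) (h : G.Adj a b) :
    b ∈ cmp G W x := by
  obtain ⟨hx, ha', hr⟩ := ha
  exact ⟨hx, hb, hr.trans (SimpleGraph.Adj.reachable (G := G.induce W) (u := ⟨a, ha'⟩) (v := ⟨b, hb⟩) h)⟩

private lemma cmp_con {W : Set V} {x : V} (hx : x ∈ W) : Con G (cmp G W x) := by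
  have key : ∀ (a b : W) (_ : (G.induce W).Walk a b) (ha : a.1 ∈ cmp G W x),
      ∃ hb : b.1 ∈ cmp G W x, (G.induce (cmp G W x)).Reachable ⟨a.1, ha⟩ ⟨b.1, hb⟩ := by
    intro a b p
    induction p with
    | nil => intro ha; exact ⟨ha, SimpleGraph.Reachable.refl _⟩
    | @cons u v w h p ih =>
      intro ha
      have hv : v.1 ∈ cmp G W x := cmp_step ha v.2 h
      obtain ⟨hb, hr⟩ := ih hv
      exact ⟨hb, (SimpleGraph.Adj.reachable (G := G.induce (cmp G W x)) (u := ⟨u.1, ha⟩) (v := ⟨v.1, hv⟩) h).trans hr⟩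
  have hx' : x ∈ cmp G W x := cmp_self hx
  have hall : ∀ y : cmp G W x, (G.induce (cmp G W x)).Reachable ⟨x, hx'⟩ y := by
    rintro ⟨y, hy⟩
    obtain ⟨hx2, hy2, ⟨p⟩⟩ := hy
    obtain ⟨_, hr⟩ := key ⟨x, hx2⟩ ⟨y, hy2⟩ p hx'
    exact hr
  have : Nonempty (cmp G W x) := ⟨⟨x, hx'⟩⟩
  exact ⟨fun y z => (hall y).symm.trans (hall z)⟩

private lemma cmp_disj {W : Set V} {x y : V} (h : y ∉ cmp G W x) : Disjoint (cmp G W x) (cmp G W y) := by
  rw [Set.disjoint_left]
  rintro z ⟨hx, hz, hr⟩ ⟨hy, hz', hr'⟩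
  exact h ⟨hx, hy, hr.trans hr'.symm⟩

private lemma cmp_eq {W : Set V} {x y : V} (h : y ∈ cmp G W x) : cmp G W y = cmp G W x := by
  obtain ⟨hx, hy, hr⟩ := h
  ext z
  constructor
  · rintro ⟨_, hz, h2⟩
    exact ⟨hx, hz, hr.trans h2⟩
  · rintro ⟨_, hz, h2⟩
    exact ⟨hy, hz, hr.symm.trans h2⟩

private lemma con_of_cmp {W : Set V} (hne : W.Nonempty) (h : ∀ x ∈ W, ∀ y ∈ W, y ∈ cmp G W x) : Con G W := by
  obtain ⟨x, hx⟩ := hne
  have : Nonempty W := ⟨⟨x, hx⟩⟩
  refine ⟨fun a b => ?_⟩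
  obtain ⟨_, _, hr⟩ := h a.1 a.2 b.1 b.2
  exact hr

private lemma arc_con {m : ℕ} {c : ZMod m → V} (hadj : ∀ j, G.Adj (c j) (c (j + 1))) (i : ZMod m) (a n : ℕ) :
    Con G {x | ∃ t : ℕ, a ≤ t ∧ t ≤ a + n ∧ x = c (i + t)} := by
  induction n with
  | zero =>
    have e : {x | ∃ t : ℕ, a ≤ t ∧ t ≤ a + 0 ∧ x = c (i + t)} = {c (i + a)} := by
      ext x
      constructor
      · rintro ⟨t, h1, h2, rfl⟩
        have : t = a := by omega
        rw [this]
        rfl
      · rintro rfl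
        exact ⟨a, le_refl _, by omega, rfl⟩
    rw [e]
    exact con_singleton _ _
  | succ n ih =>
    have e : {x | ∃ t : ℕ, a ≤ t ∧ t ≤ a + (n + 1) ∧ x = c (i + t)} =
        {x | ∃ t : ℕ, a ≤ t ∧ t ≤ a + n ∧ x = c (i + t)} ∪ {c (i + ((a + n + 1 : ℕ) : ZMod m))} := by
      ext x
      constructor
      · rintro ⟨t, h1, h2, rfl⟩
        by_cases ht : t ≤ a + n
        · exact Or.inl ⟨t, h1, ht, rfl⟩
        · have : t = a + n + 1 := by omega
          rw [this]
          exact Or.inr rfl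
      · rintro (⟨t, h1, h2, rfl⟩ | rfl)
        · exact ⟨t, h1, by omega, rfl⟩
        · exact ⟨a + n + 1, by omega, by omega, rfl⟩
    rw [e]
    refine con_union ih (con_singleton _ _) ⟨c (i + ((a + n : ℕ) : ZMod m)), ⟨a + n, by omega, le_refl _, rfl⟩, _, rfl, ?_⟩
    have h := hadj (i + ((a + n : ℕ) : ZMod m))
    have e2 : i + ((a + n : ℕ) : ZMod m) + 1 = i + ((a + n + 1 : ℕ) : ZMod m) := by
      push_cast
      ring
    rwa [e2] at h

/-! ### arithmetic of indices -/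

private lemma idx {m : ℕ} [NeZero m] (i j : ZMod m) : ∃ t : ℕ, t < m ∧ j = i + t := by
  refine ⟨(j - i).val, ZMod.val_lt _, ?_⟩
  rw [ZMod.natCast_zmod_val]
  ring

private lemma cast_inj {m : ℕ} {i : ZMod m} {s t : ℕ} (hs : s < m) (ht : t < m) (h : i + (s : ZMod m) = i + t) :
    s = t := by
  have h1 := add_left_cancel h
  rw [ZMod.natCast_eq_natCast_iff'] at h1
  rwa [Nat.mod_eq_of_lt hs, Nat.mod_eq_of_lt ht] at h1

private lemma cast_m {m : ℕ} (i : ZMod m) : i + ((m : ℕ) : ZMod m) = i := by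
  simp

/-! ### the face -/

private lemma fcy_adj {H : SimpleGraph V} {R : Rot H} {m : ℕ} {c : ZMod m → V} (h : FCy R m c) (j : ZMod m) :
    H.Adj (c j) (c (j + 1)) := by
  obtain ⟨e, e', he, -, -⟩ := h.2.2 j
  have h1 := e.adj
  have h2 : e.fst = c j := congrArg Prod.fst he
  have h3 : e.snd = c (j + 1) := congrArg Prod.snd he
  rwa [h2, h3] at h1

private lemma fcy_face {H : SimpleGraph V} {R : Rot H} {m : ℕ} [NeZero m] {c : ZMod m → V} (h : FCy R m c) :
    ∃ q : Quotient (Equiv.Perm.SameCycle.setoid R.φ), ∀ j, (rplus R).Adj (Sum.inr q) (Sum.inl (c j)) := by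
  let D : ZMod m → H.Dart := fun j => ⟨(c j, c (j + 1)), fcy_adj h j⟩
  have hD : ∀ j, R.φ (D j) = D (j + 1) := by
    intro j
    obtain ⟨e, e', he, he', hee⟩ := h.2.2 j
    have h1 : e = D j := SimpleGraph.Dart.ext _ _ he
    have h2 : e' = D (j + 1) := SimpleGraph.Dart.ext _ _ he'
    rw [← h1, ← h2, hee]
  have hs : ∀ t : ℕ, R.φ.SameCycle (D 0) (D (t : ZMod m)) := by
    intro t
    induction t with
    | zero =>
      rw [Nat.cast_zero]
    | succ t ih =>
      have e1 : D ((t + 1 : ℕ) : ZMod m) = R.φ (D (t : ZMod m)) := by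
        rw [hD]
        push_cast
        rfl
      rw [e1]
      exact Equiv.Perm.sameCycle_apply_right.mpr ih
  refine ⟨Quotient.mk _ (D 0), fun j => ?_⟩
  obtain ⟨t, _, ht⟩ := idx 0 j
  rw [zero_add] at ht
  refine ⟨D j, ?_, rfl⟩
  apply Quotient.sound
  rw [ht]
  exact (hs t).symm

/-! ### the complement -/

section compl

variable [Finite V] {U : Set V} {m : ℕ} {c : ZMod m → V}

/-- the attachments of `K` -/
private def att (G : SimpleGraph V) (c : ZMod m → V) (K : Set V) : Set (ZMod m) := {i | ∃ k ∈ K, G.Adj (c i) k}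

private lemma att_three (hK : Kc 3 G U) (hinj : Function.Injective c) (K : Set V)
    (hKs : K ⊆ U \ Set.range c) (hKc : Con G K)
    (hcl : ∀ x ∈ K, ∀ y ∈ U \ Set.range c, G.Adj x y → y ∈ K) (z : V) (hz : z ∈ U \ Set.range c) (hzK : z ∉ K) :
    3 ≤ (att G c K).ncard := by
  by_contra hlt
  push Not at hlt
  have hfin : (c '' att G c K).ncard < 3 := by
    rw [Set.ncard_image_of_injective _ hinj]
    exact hlt
  have hcon := hK.2 _ hfin
  obtain ⟨k, hk⟩ := con_nonempty hKc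
  have hKX : K ⊆ U \ (c '' att G c K) := by
    intro x hx
    refine ⟨(hKs hx).1, ?_⟩
    rintro ⟨i, _, rfl⟩
    exact (hKs hx).2 ⟨i, rfl⟩
  have hzX : z ∈ U \ (c '' att G c K) := by
    refine ⟨hz.1, ?_⟩
    rintro ⟨i, _, rfl⟩
    exact hz.2 ⟨i, rfl⟩
  obtain ⟨x, hx, y, hy, hxy⟩ := (Pool.Agent.Helper41.AJ.hCON V G _ hcon).1 K hKX ⟨k, hk⟩ (by
    intro e
    exact hzK (e ▸ hzX))
  by_cases hyF : y ∈ Set.range c
  · obtain ⟨i, rfl⟩ := hyF
    exact hy.1.2 ⟨i, ⟨x, hx, hxy.symm⟩, rfl⟩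
  · exact hy.2 (hcl x hx y ⟨hy.1.1, hyF⟩ hxy)

omit [Finite V] in
private lemma not_crs (hCRX : StCRX) {R : Rot (rst G U)} (hpl : Planar (rplus R)) (h3 : 3 ≤ m)
    (hinj : Function.Injective c) (hadj : ∀ j, (rst G U).Adj (c j) (c (j + 1)))
    (q : Quotient (Equiv.Perm.SameCycle.setoid R.φ)) (hq : ∀ j, (rplus R).Adj (Sum.inr q) (Sum.inl (c j)))
    (K K' : Set V) (hKs : K ⊆ U \ Set.range c) (hKs' : K' ⊆ U \ Set.range c) (hKc : Con G K) (hKc' : Con G K')
    (hd : Disjoint K K') : ¬ Crs m (fun i : ZMod m => i) (att G c K) (att G c K') := by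
  intro hcr
  have hcU : ∀ j, c j ∈ U := fun j => (hadj j).2.1
  have himg : ∀ K : Set V, K ⊆ U \ Set.range c → Con G K → Con (rplus R) (Sum.inl '' K) := by
    intro K hs hc
    refine con_image _ ?_ hc
    intro a ha b hb hab
    exact ⟨hab, (hs ha).1, (hs hb).1⟩
  have hdis : ∀ K : Set V, K ⊆ U \ Set.range c → ∀ i, 
      Disjoint (Sum.inl '' K : Set (V ⊕ Quotient (Equiv.Perm.SameCycle.setoid R.φ))) {Sum.inl (c i)} := by
    intro K hs i
    rw [Set.disjoint_singleton_right]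
    rintro ⟨x, hx, he⟩
    rw [Sum.inl.injEq] at he
    exact (hs hx).2 ⟨i, he.symm⟩
  have htch : ∀ K : Set V, K ⊆ U \ Set.range c → ∀ i ∈ att G c K, Tch (rplus R) (Sum.inl '' K) {Sum.inl (c i)} := by
    rintro K hs i ⟨k, hk, hik⟩
    exact ⟨Sum.inl k, ⟨k, hk, rfl⟩, Sum.inl (c i), rfl, ⟨hik.symm, (hs hk).1, hcU i⟩⟩
  refine (hCRX (V ⊕ Quotient (Equiv.Perm.SameCycle.setoid R.φ)) (rplus R) m (fun i => {Sum.inl (c i)}) (Sum.inl '' K)
    (Sum.inl '' K') (att G c K) (att G c K') h3 (fun i => con_singleton _ _) ?_ ?_ (himg K hKs hKc)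
    (himg K' hKs' hKc') ?_ (hdis K hKs) (hdis K' hKs') (htch K hKs) (htch K' hKs') hcr).2 {Sum.inr q}
    (con_singleton _ _) ?_ ?_ ?_ ?_ hpl
  · intro i j hij
    rw [Set.disjoint_singleton]
    intro he
    rw [Sum.inl.injEq] at he
    exact hij (hinj he)
  · intro i
    exact ⟨_, rfl, _, rfl, hadj i⟩
  · rw [Set.disjoint_left]
    rintro _ ⟨x, hx, rfl⟩ ⟨y, hy, he⟩
    rw [Sum.inl.injEq] at he
    rw [he] at hy
    exact Set.disjoint_left.mp hd hx hy
  · rw [Set.disjoint_singleton_left]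
    rintro ⟨x, _, he⟩
    exact Sum.inl_ne_inr he
  · rw [Set.disjoint_singleton_left]
    rintro ⟨x, _, he⟩
    exact Sum.inl_ne_inr he
  · intro i
    rw [Set.disjoint_singleton]
    exact Sum.inr_ne_inl
  · intro i
    exact ⟨_, rfl, _, rfl, hq i⟩

/-- the chords -/
private lemma no_chord (hPAR : StPAR) (hMNR : StMNR) (hK : Kc 3 G U) {R : Rot (rst G U)}
    (hpl : Planar (rplus R)) (h3 : 3 ≤ m) (hinj : Function.Injective c)
    (hadj : ∀ j, (rst G U).Adj (c j) (c (j + 1)))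
    (q : Quotient (Equiv.Perm.SameCycle.setoid R.φ)) (hq : ∀ j, (rplus R).Adj (Sum.inr q) (Sum.inl (c j)))
    (i j : ZMod m) (hij : G.Adj (c i) (c j)) : j = i + 1 ∨ i = j + 1 := by
  have : NeZero m := ⟨by omega⟩
  have hcU : ∀ j, c j ∈ U := fun j => (hadj j).2.1
  have hG : ∀ j, G.Adj (c j) (c (j + 1)) := fun j => (hadj j).1
  obtain ⟨r, hr, rfl⟩ := idx i j
  by_contra hcon
  push Not at hcon
  obtain ⟨hc1, hc2⟩ := hcon
  have hr0 : r ≠ 0 := by
    rintro rfl
    rw [Nat.cast_zero, add_zero] at hij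
    exact G.loopless.irrefl _ hij
  have hr1 : r ≠ 1 := by
    rintro rfl
    rw [Nat.cast_one] at hc1
    exact hc1 rfl
  have hr2 : r + 1 ≠ m := by
    intro h
    apply hc2
    have e : ((r + 1 : ℕ) : ZMod m) = 0 := by
      rw [h]
      exact ZMod.natCast_self m
    push_cast at e
    rw [add_assoc, e, add_zero]
  have hne : ∀ s : ℕ, s < m → s ≠ 0 → s ≠ r → c (i + s) ≠ c i ∧ c (i + s) ≠ c (i + r) := by
    intro s hs h0 h1
    constructor
    · intro he
      have h2 := hinj he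
      apply h0
      apply cast_inj (i := i) hs (by omega : 0 < m)
      rw [h2, Nat.cast_zero, add_zero]
    · intro he
      exact h1 (cast_inj hs hr (hinj he))
  have hW : Con G (U \ {c i, c (i + r)}) := by
    apply hK.2
    have h1 : ({c i, c (i + r)} : Set V).ncard ≤ 2 :=
      (Set.ncard_insert_le _ _).trans (by rw [Set.ncard_singleton])
    omega
  have ha1 := arc_con hG i 1 (r - 2)
  have ha2 := arc_con hG i (r + 1) (m - r - 2)
  obtain ⟨K', L', hKK, hLL, hd, hun, hcK, hcL, htch⟩ := hPAR V G _ _ _ hW ha1 ha2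
    (by
      rintro _ ⟨t, h1, h2, rfl⟩
      refine ⟨hcU _, ?_⟩
      have := hne t (by omega) (by omega) (by omega)
      rintro (h | h)
      · exact this.1 h
      · exact this.2 h)
    (by
      rintro _ ⟨t, h1, h2, rfl⟩
      refine ⟨hcU _, ?_⟩
      have := hne t (by omega) (by omega) (by omega)
      rintro (h | h)
      · exact this.1 h
      · exact this.2 h)
    (by
      rw [Set.disjoint_left]
      rintro _ ⟨t, h1, h2, rfl⟩ ⟨s, h3, h4, he⟩
      have := cast_inj (i := i) (by omega) (by omega) (hinj he)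
      omega)
  have hKU : ∀ x ∈ K', x ∈ U ∧ x ≠ c i ∧ x ≠ c (i + r) := by
    intro x hx
    have h1 : x ∈ U \ {c i, c (i + r)} := hun ▸ Or.inl hx
    exact ⟨h1.1, fun h => h1.2 (Or.inl h), fun h => h1.2 (Or.inr h)⟩
  have hLU : ∀ x ∈ L', x ∈ U ∧ x ≠ c i ∧ x ≠ c (i + r) := by
    intro x hx
    have h1 : x ∈ U \ {c i, c (i + r)} := hun ▸ Or.inr hx
    exact ⟨h1.1, fun h => h1.2 (Or.inl h), fun h => h1.2 (Or.inr h)⟩
  have hK1 : ∀ t : ℕ, 1 ≤ t → t < r → c (i + t) ∈ K' := fun t h1 h2 => hKK ⟨t, h1, by omega, rfl⟩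
  have hL1 : ∀ t : ℕ, r < t → t < m → c (i + t) ∈ L' := fun t h1 h2 => hLL ⟨t, by omega, by omega, rfl⟩
  have hstep : ∀ t : ℕ, G.Adj (c (i + t)) (c (i + ((t + 1 : ℕ) : ZMod m))) := by
    intro t
    have := hG (i + t)
    rw [Nat.cast_add, Nat.cast_one, ← add_assoc]
    exact this
  have himg : ∀ S : Set V, S ⊆ U → Con G S → Con (rplus R) (Sum.inl '' S) := by
    intro S hs hc
    refine con_image _ ?_ hc
    intro a ha b hb hab
    exact ⟨hab, hs ha, hs hb⟩
  have hne0 : c i ≠ c (i + r) := fun h => G.ne_of_adj hij h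
  -- the five sets
  let A : Fin 5 → Set (V ⊕ Quotient (Equiv.Perm.SameCycle.setoid R.φ)) :=
    ![Sum.inl '' {c i}, Sum.inl '' {c (i + r)}, {Sum.inr q}, Sum.inl '' K', Sum.inl '' L']
  have hAc : ∀ k, Con (rplus R) (A k) := by
    intro k
    fin_cases k
    · exact himg _ (Set.singleton_subset_iff.mpr (hcU _)) (con_singleton _ _)
    · exact himg _ (Set.singleton_subset_iff.mpr (hcU _)) (con_singleton _ _)
    · exact con_singleton _ _
    · exact himg _ (fun x hx => (hKU x hx).1) hcK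
    · exact himg _ (fun x hx => (hLU x hx).1) hcL
  have hdl : ∀ S T : Set V, Disjoint S T →
      Disjoint (Sum.inl '' S : Set (V ⊕ Quotient (Equiv.Perm.SameCycle.setoid R.φ))) (Sum.inl '' T) := by
    intro S T h
    exact Set.disjoint_image_of_injective Sum.inl_injective h
  have hdr : ∀ S : Set V,
      Disjoint (Sum.inl '' S : Set (V ⊕ Quotient (Equiv.Perm.SameCycle.setoid R.φ))) {Sum.inr q} := by
    intro S
    rw [Set.disjoint_singleton_right]
    rintro ⟨x, _, he⟩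
    exact Sum.inl_ne_inr he
  have htl : ∀ S T : Set V, S ⊆ U → T ⊆ U → Tch G S T → Tch (rplus R) (Sum.inl '' S) (Sum.inl '' T) := by
    rintro S T hS hT ⟨x, hx, y, hy, h⟩
    exact ⟨_, ⟨x, hx, rfl⟩, _, ⟨y, hy, rfl⟩, ⟨h, hS hx, hT hy⟩⟩
  have htr : ∀ (S : Set V) (j : ZMod m), c j ∈ S → Tch (rplus R) (Sum.inl '' S) {Sum.inr q} := by
    intro S j hj
    exact ⟨_, ⟨c j, hj, rfl⟩, _, rfl, (hq j).symm⟩
  have s1 : ({c i} : Set V) ⊆ U := Set.singleton_subset_iff.mpr (hcU _)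
  have s2 : ({c (i + r)} : Set V) ⊆ U := Set.singleton_subset_iff.mpr (hcU _)
  have s3 : K' ⊆ U := fun x hx => (hKU x hx).1
  have s4 : L' ⊆ U := fun x hx => (hLU x hx).1
  have p01 : Disjoint (A 0) (A 1) ∧ Tch (rplus R) (A 0) (A 1) :=
    ⟨hdl _ _ (Set.disjoint_singleton.mpr hne0), htl _ _ s1 s2 ⟨_, rfl, _, rfl, hij⟩⟩
  have p02 : Disjoint (A 0) (A 2) ∧ Tch (rplus R) (A 0) (A 2) := ⟨hdr _, htr _ i rfl⟩
  have p03 : Disjoint (A 0) (A 3) ∧ Tch (rplus R) (A 0) (A 3) := by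
    refine ⟨hdl _ _ (Set.disjoint_singleton_left.mpr fun h => (hKU _ h).2.1 rfl),
      htl _ _ s1 s3 ⟨_, rfl, _, hK1 1 (le_refl 1) (by omega), ?_⟩⟩
    rw [Nat.cast_one]
    exact hG i
  have p04 : Disjoint (A 0) (A 4) ∧ Tch (rplus R) (A 0) (A 4) := by
    refine ⟨hdl _ _ (Set.disjoint_singleton_left.mpr fun h => (hLU _ h).2.1 rfl),
      htl _ _ s1 s4 ⟨_, rfl, _, hL1 (m - 1) (by omega) (by omega), ?_⟩⟩
    have h1 := hstep (m - 1)
    rw [Nat.sub_add_cancel (by omega : 1 ≤ m), cast_m] at h1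
    exact h1.symm
  have p12 : Disjoint (A 1) (A 2) ∧ Tch (rplus R) (A 1) (A 2) := ⟨hdr _, htr _ (i + r) rfl⟩
  have p13 : Disjoint (A 1) (A 3) ∧ Tch (rplus R) (A 1) (A 3) := by
    refine ⟨hdl _ _ (Set.disjoint_singleton_left.mpr fun h => (hKU _ h).2.2 rfl),
      htl _ _ s2 s3 ⟨_, rfl, _, hK1 (r - 1) (by omega) (by omega), ?_⟩⟩
    have h1 := hstep (r - 1)
    rw [Nat.sub_add_cancel (by omega : 1 ≤ r)] at h1
    exact h1.symm
  have p14 : Disjoint (A 1) (A 4) ∧ Tch (rplus R) (A 1) (A 4) :=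
    ⟨hdl _ _ (Set.disjoint_singleton_left.mpr fun h => (hLU _ h).2.2 rfl),
      htl _ _ s2 s4 ⟨_, rfl, _, hL1 (r + 1) (by omega) (by omega), hstep r⟩⟩
  have p23 : Disjoint (A 2) (A 3) ∧ Tch (rplus R) (A 2) (A 3) :=
    ⟨(hdr _).symm, tch_symm (htr _ _ (hK1 1 (le_refl 1) (by omega)))⟩
  have p24 : Disjoint (A 2) (A 4) ∧ Tch (rplus R) (A 2) (A 4) :=
    ⟨(hdr _).symm, tch_symm (htr _ _ (hL1 (r + 1) (by omega) (by omega)))⟩
  have p34 : Disjoint (A 3) (A 4) ∧ Tch (rplus R) (A 3) (A 4) := ⟨hdl _ _ hd, htl _ _ s3 s4 htch⟩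
  have hall : ∀ a b : Fin 5, a < b → Disjoint (A a) (A b) ∧ Tch (rplus R) (A a) (A b) := by
    intro a b hab
    fin_cases a <;> fin_cases b <;>
      first
      | exact p01 | exact p02 | exact p03 | exact p04 | exact p12 | exact p13 | exact p14 | exact p23 | exact p24
      | exact p34 | exact absurd hab (by decide)
  have hall2 : ∀ a b : Fin 5, a ≠ b → Disjoint (A a) (A b) ∧ Tch (rplus R) (A a) (A b) := by
    intro a b hab
    rcases lt_or_gt_of_ne hab with h | h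
    · exact hall a b h
    · exact ⟨(hall b a h).1.symm, tch_symm (hall b a h).2⟩
  exact (hMNR _ _ hpl).1 A hAc (fun a b h => (hall2 a b h).1) (fun a b h => (hall2 a b h).2)

/-- the two components -/
private lemma two_comp (hCMB : StCMB) (hCRX : StCRX) (hK : Kc 3 G U) {R : Rot (rst G U)}
    (hpl : Planar (rplus R)) (h3 : 3 ≤ m) (hinj : Function.Injective c)
    (hadj : ∀ j, (rst G U).Adj (c j) (c (j + 1)))
    (q : Quotient (Equiv.Perm.SameCycle.setoid R.φ)) (hq : ∀ j, (rplus R).Adj (Sum.inr q) (Sum.inl (c j)))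
    (hind : ∀ i j, G.Adj (c i) (c j) → (j = i + 1 ∨ i = j + 1)) (x₁ x₂ : V) (hx₁ : x₁ ∈ U \ Set.range c)
    (hx₂ : x₂ ∈ U \ Set.range c) (hx : x₂ ∉ cmp G (U \ Set.range c) x₁) : False := by
  have hNZ : NeZero m := ⟨by omega⟩
  have hcU : ∀ j, c j ∈ U := fun j => (hadj j).2.1
  set W : Set V := U \ Set.range c with hW
  have hcs : ∀ x ∈ W, 3 ≤ (att G c (cmp G W x)).ncard := by
    intro x hxW
    have hz : ∃ z ∈ W, z ∉ cmp G W x := by
      by_contra hno
      push Not at hno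
      have h1 := hno x₁ hx₁
      have h2 := hno x₂ hx₂
      rw [cmp_eq h1] at hx
      exact hx h2
    obtain ⟨z, hz, hzx⟩ := hz
    exact att_three hK hinj _ cmp_sub (cmp_con hxW) (fun a ha b hb hab => cmp_step ha hb hab) z hz hzx
  have hnc : ∀ x ∈ W, ∀ y ∈ W, y ∉ cmp G W x →
      ¬ Crs m (fun i : ZMod m => i) (att G c (cmp G W x)) (att G c (cmp G W y)) := by
    intro x hx' y hy' hxy
    exact not_crs hCRX hpl h3 hinj hadj q hq _ _ cmp_sub cmp_sub (cmp_con hx') (cmp_con hy') (cmp_disj hxy)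
  set I₁ := att G c (cmp G W x₁) with hI₁
  set I₂ := att G c (cmp G W x₂) with hI₂
  have hN : NCr m (fun i : ZMod m => i) I₁ I₂ :=
    (hCMB (ZMod m) m (fun i => i) I₁ I₂ h3 (fun _ _ h => h) (fun a _ => ⟨a, rfl⟩) (fun a _ => ⟨a, rfl⟩)).resolve_right
      (hnc x₁ hx₁ x₂ hx₂ hx)
  -- minimal k
  have hex : ∃ k : ℕ, ∃ i : ZMod m, k ≤ m ∧ (∀ x ∈ I₁, ∃ t : ℕ, t ≤ k ∧ x = i + t) ∧
      (∀ x ∈ I₂, ∃ t : ℕ, k ≤ t ∧ t ≤ m ∧ x = i + t) := by
    obtain ⟨i, k, h1, h2, h3'⟩ := hN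
    exact ⟨k, i, h1, h2, h3'⟩
  classical
  obtain ⟨i, hkm, hA, hB⟩ := Nat.find_spec hex
  have hmin := fun k (h : k < Nat.find hex) => Nat.find_min hex h
  set k := Nat.find hex with hk
  have hk1 : 1 ≤ k := by
    by_contra h0
    have h0' : k = 0 := by omega
    have hs : I₁ ⊆ {i} := by
      intro x hx'
      obtain ⟨t, ht, rfl⟩ := hA x hx'
      have : t = 0 := by omega
      rw [this, Nat.cast_zero, add_zero]
      rfl
    have h1 := Set.ncard_le_ncard hs
    rw [Set.ncard_singleton] at h1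
    have h2 := hcs x₁ hx₁
    rw [← hI₁] at h2
    omega
  have hend1 : i ∈ I₁ := by
    by_contra hi
    refine hmin (k - 1) (by omega) ⟨i + 1, by omega, ?_, ?_⟩
    · intro x hx'
      obtain ⟨t, ht, rfl⟩ := hA x hx'
      have ht0 : t ≠ 0 := by
        rintro rfl
        rw [Nat.cast_zero, add_zero] at hx'
        exact hi hx'
      refine ⟨t - 1, by omega, ?_⟩
      rw [Nat.cast_sub (by omega : 1 ≤ t), Nat.cast_one]
      ring
    · intro x hx'
      obtain ⟨t, ht1, ht2, rfl⟩ := hB x hx'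
      refine ⟨t - 1, by omega, by omega, ?_⟩
      rw [Nat.cast_sub (by omega : 1 ≤ t), Nat.cast_one]
      ring
  have hend2 : i + (k : ZMod m) ∈ I₁ := by
    by_contra hi
    refine hmin (k - 1) (by omega) ⟨i, by omega, ?_, ?_⟩
    · intro x hx'
      obtain ⟨t, ht, rfl⟩ := hA x hx'
      have ht0 : t ≠ k := by
        intro h
        rw [h] at hx'
        exact hi hx'
      exact ⟨t, by omega, rfl⟩
    · intro x hx'
      obtain ⟨t, ht1, ht2, rfl⟩ := hB x hx'
      exact ⟨t, by omega, ht2, rfl⟩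
  -- an attachment of the second component inside the complementary arc
  have hin : ∃ t : ℕ, k < t ∧ t < m ∧ i + (t : ZMod m) ∈ I₂ := by
    by_contra hno
    push Not at hno
    have hs : I₂ ⊆ {i, i + (k : ZMod m)} := by
      intro x hx'
      obtain ⟨t, ht1, ht2, rfl⟩ := hB x hx'
      by_cases h1 : t = k
      · rw [h1]
        exact Or.inr rfl
      · by_cases h2 : t = m
        · left
          rw [h2]
          exact cast_m i
        · exact absurd hx' (hno t (by omega) (by omega))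
    have h1 := Set.ncard_le_ncard hs
    have h4 : ({i, i + (k : ZMod m)} : Set (ZMod m)).ncard ≤ 2 :=
      (Set.ncard_insert_le _ _).trans (by rw [Set.ncard_singleton])
    have h2 := hcs x₂ hx₂
    rw [← hI₂] at h2
    omega
  obtain ⟨t₀, ht₀, ht₀m, hin⟩ := hin
  -- the separated set
  let X : Set V := {x | (∃ t : ℕ, k < t ∧ t < m ∧ x = c (i + t)) ∨
    (x ∈ W ∧ ∃ t : ℕ, k < t ∧ t < m ∧ i + (t : ZMod m) ∈ att G c (cmp G W x))}
  have hI₁out : ∀ t : ℕ, k < t → t < m → i + (t : ZMod m) ∉ I₁ := by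
    intro t h1 h2 h
    obtain ⟨s, hs, he⟩ := hA _ h
    have := cast_inj h2 (by omega : s < m) he
    omega
  have hnx : ∀ x ∈ cmp G W x₁, x ∉ X := by
    rintro x hx' (⟨t, _, _, rfl⟩ | ⟨_, t, h1, h2, h⟩)
    · exact (cmp_sub hx').2 ⟨_, rfl⟩
    · rw [cmp_eq hx'] at h
      exact hI₁out t h1 h2 h
  have hsep : ∀ x ∈ X, ∀ y ∈ U \ {c i, c (i + (k : ZMod m))}, G.Adj x y → y ∈ X := by
    rintro x hxX y ⟨hyU, hyp⟩ hxy
    have hy1 : y ≠ c i := fun h => hyp (Or.inl h)
    have hy2 : y ≠ c (i + (k : ZMod m)) := fun h => hyp (Or.inr h)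
    rcases hxX with ⟨t, h1, h2, rfl⟩ | ⟨hxW, t, h1, h2, h⟩
    · by_cases hyF : y ∈ Set.range c
      · obtain ⟨j, rfl⟩ := hyF
        rcases hind _ _ hxy with h | h
        · left
          have e : j = i + ((t + 1 : ℕ) : ZMod m) := by
            rw [h]
            push_cast
            ring
          refine ⟨t + 1, by omega, ?_, by rw [e]⟩
          by_contra hlt
          have e2 : t + 1 = m := by omega
          rw [e2, cast_m] at e
          rw [e] at hy1
          exact hy1 rfl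
        · left
          have e : j = i + ((t - 1 : ℕ) : ZMod m) := by
            rw [Nat.cast_sub (by omega : 1 ≤ t), Nat.cast_one]
            have : j = i + t - 1 := by rw [h]; ring
            rw [this]
            ring
          refine ⟨t - 1, ?_, by omega, by rw [e]⟩
          by_contra hlt
          have e2 : t - 1 = k := by omega
          rw [e2] at e
          rw [e] at hy2
          exact hy2 rfl
      · right
        have hyW : y ∈ W := ⟨hyU, hyF⟩
        exact ⟨hyW, t, h1, h2, y, cmp_self hyW, hxy⟩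
    · by_cases hyF : y ∈ Set.range c
      · obtain ⟨z, rfl⟩ := hyF
        left
        obtain ⟨s, hs, rfl⟩ := idx i z
        refine ⟨s, ?_, hs, rfl⟩
        by_contra hks
        have hs0 : s ≠ 0 := by
          rintro rfl
          rw [Nat.cast_zero, add_zero] at hy1
          exact hy1 rfl
        have hsk : s ≠ k := by
          intro e
          rw [e] at hy2
          exact hy2 rfl
        have hxx : x ∉ cmp G W x₁ := by
          intro h'
          rw [cmp_eq h'] at h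
          exact hI₁out t h1 h2 h
        refine hnc x₁ hx₁ x hxW hxx (Or.inl ⟨i, s, k, t, by omega, by omega, h1, h2, hend1, ?_, hend2, h⟩)
        exact ⟨x, cmp_self hxW, hxy.symm⟩
      · right
        have hyW : y ∈ W := ⟨hyU, hyF⟩
        have hyx : y ∈ cmp G W x := cmp_step (cmp_self hxW) hyW hxy
        refine ⟨hyW, t, h1, h2, ?_⟩
        rw [cmp_eq hyx]
        exact h
  have hcon : Con G (U \ {c i, c (i + (k : ZMod m))}) := by
    apply hK.2
    have h1 : ({c i, c (i + (k : ZMod m))} : Set V).ncard ≤ 2 :=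
      (Set.ncard_insert_le _ _).trans (by rw [Set.ncard_singleton])
    omega
  have hxin : x₁ ∈ U \ {c i, c (i + (k : ZMod m))} := by
    refine ⟨hx₁.1, ?_⟩
    rintro (h | h)
    · exact hx₁.2 ⟨_, h.symm⟩
    · exact hx₁.2 ⟨_, h.symm⟩
  have hXsub : X ⊆ U \ {c i, c (i + (k : ZMod m))} := by
    rintro x (⟨t, h1, h2, rfl⟩ | ⟨hxW, _⟩)
    · refine ⟨hcU _, ?_⟩
      rintro (h | h)
      · have h4 : i + (t : ZMod m) = i + ((0 : ℕ) : ZMod m) := by
          rw [Nat.cast_zero, add_zero]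
          exact hinj h
        have := cast_inj h2 (by omega) h4
        omega
      · have := cast_inj h2 (by omega) (hinj h)
        omega
    · refine ⟨hxW.1, ?_⟩
      rintro (h | h)
      · exact hxW.2 ⟨_, h.symm⟩
      · exact hxW.2 ⟨_, h.symm⟩
  have hXne : X.Nonempty := ⟨c (i + (t₀ : ZMod m)), Or.inl ⟨t₀, ht₀, ht₀m, rfl⟩⟩
  obtain ⟨x, hxX, y, hy, hxy⟩ := (Pool.Agent.Helper41.AJ.hCON V G _ hcon).1 X hXsub hXne (by
    intro e
    exact hnx x₁ (cmp_self hx₁) (e ▸ hxin))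
  exact hy.2 (hsep x hxX y hy.1 hxy)

end compl

theorem hPER (hKCA : StKCA) (_hKCB : StKCB) (hPAR : StPAR) (hMNR : StMNR) (hCMB : StCMB) (hCRX : StCRX)
    (hPLU : StPLU) (hRPW : StRPW) (_hFCY : StFCY) : StPER := by
  intro V _ G U R hK m c hF
  have h3 : 3 ≤ m := hF.1
  have hinj : Function.Injective c := hF.2.1
  have : NeZero m := ⟨by omega⟩
  have hadj := fcy_adj hF
  obtain ⟨q, hq⟩ := fcy_face hF
  have hfd : Finite (rst G U).Dart :=
    Finite.of_injective (fun d : (rst G U).Dart => d.toProd) (fun d d' h => SimpleGraph.Dart.ext _ _ h)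
  have hfq : Finite (Quotient (Equiv.Perm.SameCycle.setoid R.φ)) := Quotient.finite _
  have hpl : Planar (rplus R) := hRPW _ _ (hPLU V _ R)
  have hcU : ∀ j, c j ∈ U := fun j => (hadj j).2.1
  have hind : ∀ i j, G.Adj (c i) (c j) → (j = i + 1 ∨ i = j + 1) :=
    no_chord hPAR hMNR hK hpl h3 hinj hadj q hq
  refine ⟨h3, hinj, ?_, ?_, ?_⟩
  · rintro _ ⟨j, rfl⟩
    exact hcU j
  · intro i j
    refine ⟨hind i j, ?_⟩
    rintro (rfl | rfl)
    · exact (hadj i).1
    · exact (hadj j).1.symm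
  · have hne : (U \ Set.range c).Nonempty := by
      by_contra hno
      have hUc : U ⊆ Set.range c := by
        intro x hx
        by_contra h
        exact hno ⟨x, hx, h⟩
      have h1 := (hKCA V G U).2.2.1 3 hK (c 0) (hcU 0)
      have h2 : {b | b ∈ U ∧ G.Adj (c 0) b} ⊆ {c 1, c (-1)} := by
        rintro b ⟨hb, hab⟩
        obtain ⟨j, rfl⟩ := hUc hb
        rcases hind _ _ hab with h | h
        · left
          rw [h, zero_add]
        · right
          have : j = -1 := by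
            rw [eq_neg_iff_add_eq_zero]
            exact h.symm
          rw [this]
          rfl
      have h4 := Set.ncard_le_ncard h2
      have h5 : ({c 1, c (-1)} : Set V).ncard ≤ 2 :=
        (Set.ncard_insert_le _ _).trans (by rw [Set.ncard_singleton])
      omega
    apply con_of_cmp hne
    intro x hx y hy
    by_contra h
    exact two_comp hCMB hCRX hK hpl h3 hinj hadj q hq hind x y hx hy h

end Pool.Agent.Helper10.NK
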